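import Pool.Agent.TH214.Clean
import Pool.Agent.W418.Z.Reg

/-!
MP_4d1008_ag: regular models, proper over `ℤ`, of the schemes over finite fields of characteristic
`p` whose function field is an elementary abelian extension of exponent `p` with clean
(non-degenerate) ramification, in the sense of Kato, of the function field of a smooth projective
variety with a divisor with simple normal crossings: locally the Artin-Schreier equations have the
form `w ^ p - w = x ^ n * h`, with a monomial `x ^ n`, `n ≤ 0`, in the local equations of the
boundary, where the logarithmic differentials `d (x ^ n * h) / x ^ n` are linearly independent on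
the poles. All dimensions.

The proof: see MP_19ffc6_ag.CleanCovers.

helper214; built on the library of the starting files (helpers 558, 33, 369, 405, 368, 356, 29,
230, 32, 906, 191, 410, 435, 376, 382, 348, 135, 991, 366, 74, 305, 417, 440, 409, 174, 290, 392,
352, 565, 335, 924, 337, 347, 479, 959, 727, 202, 22, 418, 519, 920 and others).
-/

set_option autoImplicit false

open AlgebraicGeometry CategoryTheory Pool.Agent.W558

namespace Pool.Agent.Results.MP_4d1008_ag.CleanCovers

/-- The coordinate ring `k[H 0 / H j, ..., H N / H j]` of the chart `H j ≠ 0` of the projective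
variety over `k` with the homogeneous coordinates `H 0, ..., H N` in a field `K`. -/
def chart (k : Type) {K : Type} [Field k] [Field K] [Algebra k K] {N : ℕ}
    (H : Fin (N + 1) → K) (j : Fin (N + 1)) : Subalgebra k K :=
  Algebra.adjoin k (Set.range fun l => H l / H j)

/-- A tangent vector at the point `P : A → κ` of `Spec A`. -/
structure TangentVector {k A κ : Type} [Field k] [CommRing A] [Algebra k A] [Field κ]
    [Algebra k κ] (P : A →ₐ[k] κ) where
  /-- the derivation -/
  D : A →ₗ[k] κ
  leibniz : ∀ a b, D (a * b) = P a * D b + P b * D a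

/-- A logarithmic tangent vector at the point `P : A → κ` of `Spec A` with the divisor
`x 1 * ... * x d = 0`: a tangent vector together with the values `e i` of `dx i / x i`. -/
structure LogTangentVector {k A κ : Type} [Field k] [CommRing A] [Algebra k A] [Field κ]
    [Algebra k κ] (P : A →ₐ[k] κ) {d : ℕ} (x : Fin d → A) extends TangentVector P where
  /-- the values of `dx i / x i` -/
  e : Fin d → κ
  D_x : ∀ i, D (x i) = P (x i) * e i

/-- The value of the logarithmic differential form
`d (x ^ n * h) / x ^ n = dh + h * ∑ i, n i * dx i / x i` on the logarithmic tangent vector `v`. -/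
def LogTangentVector.form {k A κ : Type} [Field k] [CommRing A] [Algebra k A] [Field κ]
    [Algebra k κ] {P : A →ₐ[k] κ} {d : ℕ} {x : Fin d → A} (v : LogTangentVector P x)
    (n : Fin d → ℤ) (h : A) : κ :=
  v.D h + P h * ∑ i, (n i : κ) * v.e i

/-- A smooth projective variety over `k` with the function field `K` and a divisor with simple
normal crossings on it, with the components `1, ..., d`. -/
structure SmoothPair (k K : Type) [Field k] [Field K] [Algebra k K] (N d : ℕ) where
  /-- the homogeneous coordinates -/
  H : Fin (N + 1) → K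
  H_ne : ∀ j, H j ≠ 0
  smooth : ∀ j, Algebra.Smooth k (chart k H j)
  isFractionRing : ∀ j, IsFractionRing (chart k H j) K
  /-- the local equations of the components of the divisor on the charts -/
  x : ∀ j, Fin d → chart k H j
  x_ne : ∀ j i, x j i ≠ 0
  glue : ∀ j j' i, ∃ m : ℕ, (H j' / H j) ^ m * ((x j' i : K) / x j i) ∈ chart k H j
  snc : ∀ j (κ : Type) [Field κ] [Algebra k κ] (P : chart k H j →ₐ[k] κ) (i : Fin d),
    P (x j i) = 0 → ∃ D : TangentVector P, D.D (x j i) = 1 ∧
      ∀ l, l ≠ i → P (x j l) = 0 → D.D (x j l) = 0

/-- The Artin-Schreier covers of `X` given by the functions `f t` are jointly clean: on the chart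
`j` we have `f t = a ^ p - a + x ^ (n t) * h`, for some exponents `n t i ≤ 0` which do not depend on
the chart, some `a ∈ K` and some regular function `h`, such that, at every point, for every `t` such
that the point lies on a component `i` with `n t i < 0`, the value at the point of the
logarithmic differential form `ω t = d (x ^ (n t) * h) / x ^ (n t)` is not a linear combination of
the values of the other forms `ω t'`. For a single function `f` this says that `ω` has no zeros
on the components `i` with `n i < 0`, which is the cleanness of Kato. -/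
def JointlyClean (p : ℕ) {k K : Type} [Field k] [Field K] [Algebra k K] {N d s : ℕ}
    (X : SmoothPair k K N d) (f : Fin s → K) : Prop :=
  ∃ (n : Fin s → Fin d → ℤ) (a : Fin (N + 1) → Fin s → K)
    (h : ∀ j, Fin s → chart k X.H j),
    (∀ t i, n t i ≤ 0) ∧
    (∀ j t, f t = a j t ^ p - a j t + (∏ i, (X.x j i : K) ^ n t i) * h j t) ∧
    ∀ j (κ : Type) [Field κ] [Algebra k κ] (P : chart k X.H j →ₐ[k] κ) (t : Fin s),
      (∃ i, n t i < 0 ∧ P (X.x j i) = 0) →
      ∃ v : LogTangentVector P (X.x j), v.form (n t) (h j t) ≠ 0 ∧
        ∀ t', t' ≠ t → v.form (n t') (h j t') = 0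

/-- Let `k` be a finite field of characteristic `p`, `X` a smooth projective variety over `k` with
the function field `K` and a divisor with simple normal crossings, and let `f 1, ..., f s` be
elements of `K` such that the Artin-Schreier covers of `X` given by them are jointly clean. Let
`K'` be an elementary abelian extension of `K` of exponent `p` generated by elements
`w 1, ..., w r` such that every `w j ^ p - w j` is a linear combination of the `f t` with integral
coefficients, up to elements `b ^ p - b`, `b ∈ K`. Then every integral scheme `Y` of finite type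
over `ℤ` whose function field is isomorphic to `K'` has a regular model proper over `ℤ`. -/
theorem result (p : ℕ) [Fact p.Prime] (k K K' : Type) [Field k] [Finite k] [CharP k p]
    [Field K] [Algebra k K] [Field K'] [Algebra k K'] [Algebra K K'] [IsScalarTower k K K']
    (N d s r : ℕ) (X : SmoothPair k K N d) (f : Fin s → K) (hf : JointlyClean p X f)
    (w : Fin r → K')
    (hw : ∀ j, w j ^ p - w j ∈ AddSubgroup.closure
      ((Set.range fun t => algebraMap K K' (f t)) ∪
        Set.range fun b : K => algebraMap K K' (b ^ p - b)))
    (hgen : IntermediateField.adjoin K (Set.range w) = ⊤)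
    (Y : Scheme.{0}) (_ : IsIntegral Y) (g : Y ⟶ Spec (CommRingCat.of ℤ))
    (_ : LocallyOfFiniteType g) (_ : QuasiCompact g)
    (_ : Nonempty (Y.functionField ≃+* K')) :
    ∃ (X' : Scheme.{0}) (_ : IsIntegral X') (g' : X' ⟶ Spec (CommRingCat.of ℤ)),
      IsProper g' ∧
      (∀ x : X',
        (((Module.finrank (IsLocalRing.ResidueField (X'.presheaf.stalk x))
            (IsLocalRing.CotangentSpace (X'.presheaf.stalk x)) : ℕ∞)) : WithBot ℕ∞)
          = ringKrullDim (X'.presheaf.stalk x)) ∧
      Nonempty (X'.functionField ≃+* Y.functionField) := by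
  obtain ⟨n, a, h, hn, hfe, hcl⟩ := hf
  let M : LM (⊥ : Subalgebra k K) ⊤ (Fin (N + 1)) (Fin d) :=
    Pool.Agent.TH214.pairLM X.H (fun j i => (X.x j i : K)) X.H_ne X.smooth
      (fun j i => (X.x j i).2) (fun j i h0 => X.x_ne j i (Subtype.ext h0)) X.glue (by
        intro j κ _ _ P i hi h0
        obtain ⟨D, h1, h2⟩ := X.snc j κ P i h0
        exact ⟨⟨D.D, D.leibniz⟩, h1, fun l hl hne hl0 => h2 l hne hl0⟩)
  have hGM : GMA p k f (fun b : PEmpty => (b.elim : K)) := by
    refine ⟨Fin (N + 1), Fin d, inferInstance, inferInstance, M, n, a,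
      fun j t => (h j t : K), fun b => b.elim, ⟨hn, fun j t => (h j t).2, hfe, ?_⟩,
      fun b => b.elim, ?_⟩
    · intro j κ _ _ P t ht
      obtain ⟨v, hv1, hv2⟩ := hcl j κ P t ht
      exact ⟨⟨⟨v.D, v.leibniz⟩, v.e, fun i hi => v.D_x i⟩, hv1, hv2⟩
    · intro j z
      have := X.isFractionRing j
      obtain ⟨a', b', hb', rfl⟩ := IsFractionRing.div_surjective (A := chart k X.H j) z
      exact ⟨a', a'.2, b', b'.2, fun h0 => nonZeroDivisors.ne_zero hb' (Subtype.ext h0),
        div_eq_mul_inv _ _⟩
  obtain ⟨T, I, hT, hI, M', Γ, -, hR⟩ := Pool.Agent.TH214.model_of_GMA p k K K' f _ hGM w hw hgen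
  obtain ⟨X', hX', g', h1, h2, ⟨h3⟩⟩ := Pool.Agent.W418.Z.regular_of_LM M' (fun t x => by
    obtain ⟨a, ha, b, hb, hb0, h⟩ := hR t x
    exact ⟨a, ha, b, hb, hb0, by rw [h, div_eq_mul_inv]⟩)
  obtain ⟨ε⟩ := ‹Nonempty (Y.functionField ≃+* K')›
  exact ⟨X', hX', g', h1, h2, ⟨h3.trans ε.symm⟩⟩

end Pool.Agent.Results.MP_4d1008_ag.CleanCovers
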