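import Pool.Agent.TH188.VT.Main
import Pool.Agent.W418.Z.Reg

/-!
MP_4d1008_ag: regular models, proper over `ℤ`, of the schemes over finite fields of characteristic
`p` whose function field is a purely inseparable extension of exponent one of the function field of
a product of surfaces, generated by `p`-th roots of linear combinations of products of functions on
the surfaces, or of products of powers of such functions. These include the function fields of all
quotients of products of surfaces by subgroup schemes of `(α_p) ^ n`, `(μ_p) ^ n` which act
factorwise. All even dimensions.

The proof: (1) Giraud's normal form `f = a ^ p + x ^ n * h` of a function on a surface (starting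
library), and its version for products of functions (MP_b525bf_ag). (2) NEW: the normal form is
preserved in towers of `p`-th roots: for the coefficient vectors of the functions which have not yet
been adjoined one chooses representatives in echelon form with respect to the order of the
monomials `x ^ n` on a toroidal blowup; the logarithmic tangent vectors which kill the adjoined
functions do not kill the next one. (3) NEW: these logarithmic tangent vectors can be lifted to the
blowups which make the cover `y ^ p = x ^ c * h` smooth. See MP_19ffc6_ag.SurfaceVectorFieldQuotients.

helper188; jobs: helpers 715, 971, 558, 90, 153; built on the library of the starting files (team of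
helper558: helpers 578, 349, 191, 85, 64, 924, 52, 216, 177, 462, 932, 411, 499, 337, 372, 193, 150,
978, 930, 327, 376, 32, 902, 417, 135, and for the models over `ℤ` 418, 519, 920 and others).
-/

set_option autoImplicit false

open AlgebraicGeometry CategoryTheory Pool.Agent.TH188.VT

namespace Pool.Agent.Results.MP_4d1008_ag.InseparableTowers

/-- Let `k` be a finite field of characteristic `p`, and let the field extension `K` of `k` be
generated by subfields `E 1, ..., E n` and elements `w 1, ..., w r`. The `E i` are linearly
disjoint over `k` and function fields of smooth projective surfaces over `k`, or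
`E i = k(x i 0, x i 1)` for algebraically independent elements `x i j` of `K`. Either the
elements `w j ^ p` are linear combinations over `k` of products `g t 1 * ... * g t n` of
elements `g t i` of the `E i` such that for every `i` at most one of the `g t i` is not a `p`-th
power in `E i`; or the elements `w j ^ p` are products of powers of elements `g i ≠ 0` of the `E i`.
Then every integral scheme `X` of finite type over `ℤ` whose function field is isomorphic to `K` has
a regular model proper over `ℤ`: it is birational to a regular integral scheme `X'` proper over
`ℤ`. -/
theorem result (p : ℕ) [Fact p.Prime] (k K : Type) [Field k] [Finite k] [CharP k p] [Field K]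
    [Algebra k K] (n r : ℕ) (E : Fin n → IntermediateField k K) (w : Fin r → K)
    (h : IsInseparableTower E p w)
    (X : Scheme.{0}) (_ : IsIntegral X) (g : X ⟶ Spec (CommRingCat.of ℤ))
    (_ : LocallyOfFiniteType g) (_ : QuasiCompact g) (_ : Nonempty (X.functionField ≃+* K)) :
    ∃ (X' : Scheme.{0}) (_ : IsIntegral X') (g' : X' ⟶ Spec (CommRingCat.of ℤ)),
      IsProper g' ∧
      (∀ x : X',
        (((Module.finrank (IsLocalRing.ResidueField (X'.presheaf.stalk x))
            (IsLocalRing.CotangentSpace (X'.presheaf.stalk x)) : ℕ∞)) : WithBot ℕ∞)
          = ringKrullDim (X'.presheaf.stalk x)) ∧
      Nonempty (X'.functionField ≃+* X.functionField) := by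
  obtain ⟨T, I, hT, hI, M, Γ, -, hR⟩ := exists_models h PEmpty (fun b => b.elim)
    (fun b => b.elim) (fun b => b.elim)
  obtain ⟨X', hX', g', h1, h2, ⟨h3⟩⟩ := Pool.Agent.W418.Z.regular_of_LM M (fun t x => by
    obtain ⟨a, ha, b, hb, hb0, h⟩ := hR t x
    exact ⟨a, ha, b, hb, hb0, by rw [h, div_eq_mul_inv]⟩)
  obtain ⟨ε⟩ := ‹Nonempty (X.functionField ≃+* K)›
  exact ⟨X', hX', g', h1, h2, ⟨h3.trans ε.symm⟩⟩

end Pool.Agent.Results.MP_4d1008_ag.InseparableTowers
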