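import Pool.Agent.TH214.SD.Main
import Pool.Agent.W418.Z.Reg

/-!
MP_4d1008_ag: regular proper models over `ℤ` for the integral schemes of finite type whose function
field is generated by `p`-th roots over a field `K_0` of the following kind, over a finite field
`k` of characteristic `p`.

`K_0` is generated by linearly disjoint function fields `E 1, ..., E m` of arbitrary surfaces over
`k` (given with smooth projective models) and by nonzero elements `y 1, ..., y n` which satisfy
equations `G i (u, y) = 0`, where `u 1, ..., u h` are products of arbitrary elements of the `E i`
and the `G i` are Laurent polynomials which are schön with respect to `y` (all initial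
degenerations of the equations are smooth over the torus of the `u`); for example `K_0` is the
function field of the product of surfaces, curves and a schön subvariety of a torus, such as the
complement of an arrangement of hyperplanes, or of a tame Kummer cover `y j ^ d_j = u j` of the
product of the surfaces.

The elements adjoined to `K_0` are `w j` with `w j ^ p` linear combinations with coefficients in
`k` of products `g t 1 * ... * g t m` of functions `g t i ∈ E i`, for each `i` at most one of them
not a `p`-th power, and of Laurent polynomials `F t (u, y)` whose initial forms have
differentials, relative to the torus of the `u` and the `G i`, linearly independent everywhere.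

The proof: (1) the surfaces are blown up in points until the functions `g t i` which are not `p`-th
powers have a normal form `a ^ p + x ^ n * h` such that the logarithmic form of `x ^ n * h` has no
zeros (Giraud's theorem) and all other functions are locally monomials; (2) on a toroidal blowup of
the product of the surfaces and of a compactified torus adapted to the Newton polytopes the
closure of the subvariety is smooth and has normal crossings with the boundary; (3) corrections by
logarithmic vectors of the torus tangent to the subvariety show that the logarithmic differentials
of all the summands are linearly independent at every point of the closure; (4) then smooth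
models of the towers of `p`-th roots are given by the theorem on towers of helper188
(MP_b525bf_ag.InseparableTowers); (5) the smooth charts glue to a regular scheme proper over `ℤ`.

helper214; built on the library of the starting files (helpers 558, 33, 369, 405, 368, 356, 29,
230, 32, 906, 191, 410, 435, 376, 382, 348, 135, 991, 366, 74, 305, 417, 440, 409, 174, 290, 392,
352, 565, 335, 924, 337, 347, 479, 959, 727, 202, 418, 519, 920 and others) and on the files of
helper188 for towers of inseparable extensions and for models of surfaces (helpers 188, 715, 971,
558, 90, 153).
-/

set_option autoImplicit false

open AlgebraicGeometry CategoryTheory Pool.Agent.TH214.SD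

namespace Pool.Agent.Results.MP_4d1008_ag.SchonSurfaceInseparable

/-- Let `k` be a finite field of characteristic `p`. Let `E 1, ..., E m` be linearly disjoint
function fields of smooth projective surfaces over `k` in the field extension `K` of `k` (or `E i =
k(x i 0, x i 1)` with algebraically independent `x i j`). Let `y 1, ..., y n ≠ 0` be elements of
`K` with `G i (u, y) = 0`, where the `u a ≠ 0` are products of elements of the `E i` and the
Laurent polynomials `G i` are schön equations of codimension at least `c` with respect to the
variables `Y`, and let `d = n - c` of the `y j` be algebraically independent over the field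
generated by the `E i`. Suppose that `K` is generated by the `E i`, the `y j` and elements `w j`
such that the `w j ^ p` are linear combinations with coefficients in `k` of products `g t 1 * ... *
g t m`, `g t i ∈ E i`, where for each `i` at most one of the `g t i` is not a `p`-th power in `E
i`, and of the `F t (u, y)`, where the Laurent polynomials `F t` are strongly nondegenerate on the
subscheme given by the `G i`. Then every integral scheme of finite type over `ℤ` whose function
field is isomorphic to `K` has a regular model which is proper over `ℤ`. -/
theorem result (p : ℕ) [Fact p.Prime] (k K : Type) [Field k] [Finite k] [CharP k p]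
    [Field K] [Algebra k K] (m n h c d q r s o : ℕ) (E : Fin m → IntermediateField k K)
    (u : Fin h → K) (y : Fin n → K) (G : Fin q → (Fin h ⊕ Fin n → ℤ) →₀ k) (ρ : Fin d → Fin n)
    (g : Fin o → ∀ i, E i) (F : Fin s → (Fin h ⊕ Fin n → ℤ) →₀ k) (w : Fin r → K)
    (hK : IsInseparableCover E p c u y G ρ g F w)
    (Y : Scheme.{0}) (_ : IsIntegral Y) (g₀ : Y ⟶ Spec (CommRingCat.of ℤ))
    (_ : LocallyOfFiniteType g₀) (_ : QuasiCompact g₀)
    (_ : Nonempty (Y.functionField ≃+* K)) :
    ∃ (X' : Scheme.{0}) (_ : IsIntegral X') (g' : X' ⟶ Spec (CommRingCat.of ℤ)),
      IsProper g' ∧
      (∀ x : X',
        (((Module.finrank (IsLocalRing.ResidueField (X'.presheaf.stalk x))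
            (IsLocalRing.CotangentSpace (X'.presheaf.stalk x)) : ℕ∞)) : WithBot ℕ∞)
          = ringKrullDim (X'.presheaf.stalk x)) ∧
      Nonempty (X'.functionField ≃+* Y.functionField) := by
  obtain ⟨T', I, hT', hI, M, Γ, hFn, hR⟩ := insep_models hK Empty (fun b => b.elim) (fun b => b.elim)
  obtain ⟨X', hX', g', h1, h2, ⟨h3⟩⟩ := Pool.Agent.W418.Z.regular_of_LM M (fun t x => by
    obtain ⟨a, ha, b, hb, hb0, h⟩ := hR t x
    exact ⟨a, ha, b, hb, hb0, by rw [h, div_eq_mul_inv]⟩)
  obtain ⟨ε⟩ := ‹Nonempty (Y.functionField ≃+* K)›
  exact ⟨X', hX', g', h1, h2, ⟨h3.trans ε.symm⟩⟩

end Pool.Agent.Results.MP_4d1008_ag.SchonSurfaceInseparable
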