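import Pool.Agent.TH214.SD.Main
import Pool.Agent.W418.Z.Reg

/-!
MP_4d1008_ag: regular proper models over `ℤ` for the integral schemes of finite type whose function
field is an elementary abelian extension of exponent `p` of a field `K_0` of the following kind,
over a finite field `k` of characteristic `p`.

`K_0` is generated by linearly disjoint function fields `E 1, ..., E m` of arbitrary surfaces over
`k` (given with smooth projective models) and by nonzero elements `y 1, ..., y n` which satisfy
equations `G i (u, y) = 0`, where `u 1, ..., u h` are products of arbitrary elements of the `E i`
and the `G i` are Laurent polynomials which are schön with respect to `y` (all initial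
degenerations of the equations are smooth over the torus of the `u`); for example `K_0` is the
function field of the product of surfaces, curves and a schön subvariety of a torus, such as the
complement of an arrangement of hyperplanes, or of a tame Kummer cover `y j ^ d_j = u j` of the
product of the surfaces.

The extension is given by Artin-Schreier equations `w ^ p - w = g` whose right-hand sides are
integral linear combinations of arbitrary functions `f i ∈ E i`, and of Laurent polynomials
`F t (u, y)` which are jointly nondegenerate: either nondegenerate at infinity and involving only
`y` (also in the `G i`), or strongly nondegenerate.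

The proof: (1) the surfaces are blown up in points until the functions `f i` have a normal form
`a ^ p - a + x ^ n * h` such that the logarithmic form of `x ^ n * h` has no zeros on its poles
and all other functions are locally monomials; (2) on a toroidal blowup of the product of the
surfaces and of a compactified torus adapted to the Newton polytopes the closure of the
subvariety is smooth and has normal crossings with the boundary: the strict transforms of the
equations have independent differentials in directions tangent to the strata of the boundary,
and generate the ideal of the closure by a dimension count and Nakayama's lemma; (3) corrections by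
logarithmic vectors of the torus tangent to the subvariety show that the logarithmic
differentials of the polar parts of all the summands are linearly independent at every point
of the closure on their poles; (4) this is the normal form from which the starting library (the
proof of MP_19ffc6_ag.SurfaceProductQuotients) produces smooth models of the tower of
Artin-Schreier extensions; (5) the smooth charts glue to a regular scheme proper over `ℤ`.

helper214; built on the library of the starting files (helpers 558, 33, 369, 405, 368, 356, 29,
230, 32, 906, 191, 410, 435, 376, 382, 348, 135, 991, 366, 74, 305, 417, 440, 409, 174, 290, 392,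
352, 565, 335, 924, 337, 347, 479, 959, 727, 202, 418, 519, 920 and others) and on the files of
helper188 for towers of inseparable extensions and for models of surfaces (helpers 188, 715, 971,
558, 90, 153).
-/

set_option autoImplicit false

open AlgebraicGeometry CategoryTheory Pool.Agent.TH214.SD

namespace Pool.Agent.Results.MP_4d1008_ag.SchonSurfaceModels

/-- Let `k` be a finite field of characteristic `p`. Let `E 1, ..., E m` be linearly disjoint
function fields of smooth projective surfaces over `k` in the field extension `K` of `k` (or `E i =
k(x i 0, x i 1)` with algebraically independent `x i j`). Let `y 1, ..., y n ≠ 0` be elements of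
`K` with `G i (u, y) = 0`, where the `u a ≠ 0` are products of elements of the `E i` and the
Laurent polynomials `G i` are schön equations of codimension at least `c` with respect to the
variables `Y`, and let `d = n - c` of the `y j` be algebraically independent over the field
generated by the `E i`. Suppose that `K` is generated by the `E i`, the `y j` and elements `w j`
such that the `w j ^ p - w j` are integral linear combinations of functions `f i ∈ E i` and of the
elements `F t (u, y)`, where the Laurent polynomials `F t` are jointly nondegenerate on the
subscheme given by the `G i`, strongly for `t ∈ T`, and if `T` does not contain all `t` then the `G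
i` and the `F t` with `t ∉ T` involve only `Y`. Then every integral scheme of finite type over `ℤ`
whose function field is isomorphic to `K` has a regular model which is proper over `ℤ`. -/
theorem result (p : ℕ) [Fact p.Prime] (k K : Type) [Field k] [Finite k] [CharP k p]
    [Field K] [Algebra k K] (m n h c d q r s : ℕ) (E : Fin m → IntermediateField k K)
    (u : Fin h → K) (y : Fin n → K) (G : Fin q → (Fin h ⊕ Fin n → ℤ) →₀ k) (ρ : Fin d → Fin n)
    (f : ∀ i, E i) (F : Fin s → (Fin h ⊕ Fin n → ℤ) →₀ k) (T : Set (Fin s)) (w : Fin r → K)
    (hK : IsWildCover E p c u y G ρ f F T w)
    (Y : Scheme.{0}) (_ : IsIntegral Y) (g : Y ⟶ Spec (CommRingCat.of ℤ))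
    (_ : LocallyOfFiniteType g) (_ : QuasiCompact g)
    (_ : Nonempty (Y.functionField ≃+* K)) :
    ∃ (X' : Scheme.{0}) (_ : IsIntegral X') (g' : X' ⟶ Spec (CommRingCat.of ℤ)),
      IsProper g' ∧
      (∀ x : X',
        (((Module.finrank (IsLocalRing.ResidueField (X'.presheaf.stalk x))
            (IsLocalRing.CotangentSpace (X'.presheaf.stalk x)) : ℕ∞)) : WithBot ℕ∞)
          = ringKrullDim (X'.presheaf.stalk x)) ∧
      Nonempty (X'.functionField ≃+* Y.functionField) := by
  obtain ⟨T', I, hT', hI, M, Γ, hFn, hR⟩ := wild_models hK Empty (fun b => b.elim) (fun b => b.elim)
  obtain ⟨X', hX', g', h1, h2, ⟨h3⟩⟩ := Pool.Agent.W418.Z.regular_of_LM M (fun t x => by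
    obtain ⟨a, ha, b, hb, hb0, h⟩ := hR t x
    exact ⟨a, ha, b, hb, hb0, by rw [h, div_eq_mul_inv]⟩)
  obtain ⟨ε⟩ := ‹Nonempty (Y.functionField ≃+* K)›
  exact ⟨X', hX', g', h1, h2, ⟨h3.trans ε.symm⟩⟩

end Pool.Agent.Results.MP_4d1008_ag.SchonSurfaceModels
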